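import Pool.Agent.Helper42.FR.Stmts

/-!
# Sheet FR, row RC: the recursion for the ranks
-/

set_option autoImplicit false

namespace Pool.Agent.Helper87.FR

open Matrix Pool.Agent.Helper81.Fmr Pool.Agent.Helper42.FR

universe u

variable {F : Type u} [Field F] {b : ℕ}

theorem rk_add (A B : Matrix (Fin b) (Fin b) F) : (A + B).rank ≤ A.rank + B.rank := by
  have h : LinearMap.range (A + B).mulVecLin ≤
      LinearMap.range A.mulVecLin ⊔ LinearMap.range B.mulVecLin := by
    rintro _ ⟨v, rfl⟩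
    rw [Matrix.mulVecLin_add]
    exact Submodule.add_mem_sup ⟨v, rfl⟩ ⟨v, rfl⟩
  exact (Submodule.finrank_mono h).trans (Submodule.finrank_add_le_finrank_add_finrank _ _)

theorem rk_neg (A : Matrix (Fin b) (Fin b) F) : (-A).rank ≤ A.rank := by
  have h : -A = (-1) * A := by simp
  rw [h]
  exact Matrix.rank_mul_le_right _ _

theorem _root_.Pool.Agent.Helper42.FR.AE.symm87 {d : ℕ} {X Y : Matrix (Fin b) (Fin b) F} (h : AE d X Y) : AE d Y X := by
  unfold AE at *
  have h1 : Y - X = -(X - Y) := by abel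
  rw [h1]
  exact (rk_neg _).trans h

theorem _root_.Pool.Agent.Helper42.FR.AE.trans87 {d d' : ℕ} {X Y Z : Matrix (Fin b) (Fin b) F} (h : AE d X Y) (h' : AE d' Y Z) :
    AE (d + d') X Z := by
  unfold AE at *
  have h1 : X - Z = (X - Y) + (Y - Z) := by abel
  rw [h1]
  exact (rk_add _ _).trans (add_le_add h h')

theorem _root_.Pool.Agent.Helper42.FR.AE.left87 {d : ℕ} {X Y : Matrix (Fin b) (Fin b) F} (W : Matrix (Fin b) (Fin b) F)
    (h : AE d X Y) : AE d (W * X) (W * Y) := by
  unfold AE at *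
  rw [← mul_sub]
  exact (Matrix.rank_mul_le_right _ _).trans h

theorem _root_.Pool.Agent.Helper42.FR.AE.right87 {d : ℕ} {X Y : Matrix (Fin b) (Fin b) F} (W : Matrix (Fin b) (Fin b) F)
    (h : AE d X Y) : AE d (X * W) (Y * W) := by
  unfold AE at *
  rw [← sub_mul]
  exact (Matrix.rank_mul_le_left _ _).trans h

theorem _root_.Pool.Agent.Helper42.FR.AE.mono87 {d d' : ℕ} {X Y : Matrix (Fin b) (Fin b) F} (h : AE d X Y) (h' : d ≤ d') :
    AE d' X Y := le_trans h h'

theorem _root_.Pool.Agent.Helper42.FR.AE.rk87 {d : ℕ} {X Y : Matrix (Fin b) (Fin b) F} (h : AE d X Y) : X.rank ≤ Y.rank + d := by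
  unfold AE at h
  have h1 : X = Y + (X - Y) := by abel
  calc X.rank = (Y + (X - Y)).rank := by rw [← h1]
    _ ≤ Y.rank + (X - Y).rank := rk_add _ _
    _ ≤ Y.rank + d := by omega

theorem _root_.Pool.Agent.Helper42.FR.AE.refl87 (X : Matrix (Fin b) (Fin b) F) : AE 0 X X := by
  unfold AE
  simp

/-- conjugation of an almost idempotent -/
theorem cj_idem {a d : ℕ} {X h h' : Matrix (Fin b) (Fin b) F} (hX : AE a (X * X) X)
    (hh : AE d (h' * h) 1) : AE (a + d) ((h * X * h') * (h * X * h')) (h * X * h') := by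
  have h1 : AE d ((h * X) * (h' * h) * (X * h')) ((h * X) * 1 * (X * h')) :=
    (hh.left87 (h * X)).right87 (X * h')
  have h2 : AE a (h * (X * X) * h') (h * X * h') := (hX.left87 h).right87 h'
  have e1 : (h * X * h') * (h * X * h') = (h * X) * (h' * h) * (X * h') := by
    simp only [mul_assoc]
  have e2 : (h * X) * 1 * (X * h') = h * (X * X) * h' := by
    simp only [mul_one, mul_assoc]
  rw [e1]
  rw [e2] at h1
  exact (h1.trans87 h2).mono87 (by omega)

/-- `h'` commutes with what `h` commutes with -/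
theorem inv_comm {δ d : ℕ} {h h' f : Matrix (Fin b) (Fin b) F} (hf : AE δ (h * f) (f * h))
    (hh : AE d (h * h') 1) (hh' : AE d (h' * h) 1) : AE (δ + 2 * d) (h' * f) (f * h') := by
  have h1 : AE d (h' * f * (h * h')) (h' * f * 1) := hh.left87 (h' * f)
  have h2 : AE δ (h' * (h * f) * h') (h' * (f * h) * h') := (hf.left87 h').right87 h'
  have h3 : AE d ((h' * h) * (f * h')) (1 * (f * h')) := hh'.right87 (f * h')
  have e1 : h' * f * 1 = h' * f := mul_one _
  have e2 : h' * f * (h * h') = h' * (f * h) * h' := by simp only [mul_assoc]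
  have e3 : h' * (h * f) * h' = (h' * h) * (f * h') := by simp only [mul_assoc]
  have e4 : 1 * (f * h') = f * h' := one_mul _
  rw [e1, e2] at h1
  rw [e3] at h2
  rw [e4] at h3
  exact ((h1.symm87.trans87 h2.symm87).trans87 h3).mono87 (by omega)

/-- conjugation and commutation -/
theorem cj_comm {a δ d : ℕ} {X h h' f : Matrix (Fin b) (Fin b) F} (hX : AE a (X * f) (f * X))
    (hf : AE δ (h * f) (f * h)) (hh : AE d (h * h') 1) (hh' : AE d (h' * h) 1) :
    AE (a + 2 * δ + 2 * d) ((h * X * h') * f) (f * (h * X * h')) := by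
  have h1 : AE (δ + 2 * d) (h * X * (h' * f)) (h * X * (f * h')) :=
    (inv_comm hf hh hh').left87 (h * X)
  have h2 : AE a (h * (X * f) * h') (h * (f * X) * h') := (hX.left87 h).right87 h'
  have h3 : AE δ ((h * f) * (X * h')) ((f * h) * (X * h')) := hf.right87 (X * h')
  have e1 : (h * X * h') * f = h * X * (h' * f) := by simp only [mul_assoc]
  have e2 : h * X * (f * h') = h * (X * f) * h' := by simp only [mul_assoc]
  have e3 : h * (f * X) * h' = (h * f) * (X * h') := by simp only [mul_assoc]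
  have e4 : (f * h) * (X * h') = f * (h * X * h') := by simp only [mul_assoc]
  rw [e2] at h1
  rw [e3] at h2
  rw [e4] at h3
  rw [e1]
  exact ((h1.trans87 h2).trans87 h3).mono87 (by omega)

/-- the rank after conjugation -/
theorem cj_rank {δ d r ρ : ℕ} {X h h' f : Matrix (Fin b) (Fin b) F}
    (hf : AE δ (h * f) (f * h)) (hh : AE d (h * h') 1) (hh' : AE d (h' * h) 1)
    (h1 : (X * f).rank ≤ r + ρ) (h2 : r ≤ (X * f).rank + ρ) :
    ((h * X * h') * f).rank ≤ r + (ρ + δ + 4 * d) ∧
      r ≤ ((h * X * h') * f).rank + (ρ + δ + 4 * d) := by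
  have g1 : AE (δ + 2 * d) (h * X * (h' * f)) (h * X * (f * h')) :=
    (inv_comm hf hh hh').left87 (h * X)
  have e1 : (h * X * h') * f = h * X * (h' * f) := by simp only [mul_assoc]
  have e2 : h * X * (f * h') = h * (X * f) * h' := by simp only [mul_assoc]
  rw [← e1, e2] at g1
  have g2 : (h * (X * f) * h').rank ≤ (X * f).rank :=
    (Matrix.rank_mul_le_left _ _).trans (Matrix.rank_mul_le_right _ _)
  have g3 : AE (2 * d) (h' * (h * (X * f) * h') * h) (X * f) := by
    have k1 : AE d ((h' * h) * ((X * f) * (h' * h))) (1 * ((X * f) * (h' * h))) :=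
      hh'.right87 _
    have k2 : AE d ((X * f) * (h' * h)) ((X * f) * 1) := hh'.left87 _
    rw [one_mul] at k1
    rw [mul_one] at k2
    have e3 : h' * (h * (X * f) * h') * h = (h' * h) * ((X * f) * (h' * h)) := by
      simp only [mul_assoc]
    rw [e3]
    exact (k1.trans87 k2).mono87 (by omega)
  have g4 : (h' * (h * (X * f) * h') * h).rank ≤ (h * (X * f) * h').rank :=
    (Matrix.rank_mul_le_left _ _).trans (Matrix.rank_mul_le_right _ _)
  have g5 := g1.rk87
  have g6 := g1.symm87.rk87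
  have g7 := g3.symm87.rk87
  constructor <;> omega

/-- the rank after conjugation with `s`, `s'` only -/
theorem sj_rank {d : ℕ} {Y s s' : Matrix (Fin b) (Fin b) F} (hs : AE d (s' * s) 1) :
    (s * Y * s').rank ≤ Y.rank ∧ Y.rank ≤ (s * Y * s').rank + 2 * d := by
  refine ⟨(Matrix.rank_mul_le_left _ _).trans (Matrix.rank_mul_le_right _ _), ?_⟩
  have k1 : AE d ((s' * s) * (Y * (s' * s))) (1 * (Y * (s' * s))) := hs.right87 _
  have k2 : AE d (Y * (s' * s)) (Y * 1) := hs.left87 _
  rw [one_mul] at k1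
  rw [mul_one] at k2
  have e3 : s' * (s * Y * s') * s = (s' * s) * (Y * (s' * s)) := by
    simp only [mul_assoc]
  have k3 := k1.trans87 k2
  rw [← e3] at k3
  have k4 := k3.symm87.rk87
  have k5 : (s' * (s * Y * s') * s).rank ≤ (s * Y * s').rank :=
    (Matrix.rank_mul_le_left _ _).trans (Matrix.rank_mul_le_right _ _)
  omega

/-- `e` commutes with `s⁻¹ e s` -/
theorem em_comm {d : ℕ} {s s' e : Matrix (Fin b) (Fin b) F} (hs : AE d (s' * s) 1)
    (h : AE d (e * (s * e * s')) (s * e * s' * e)) :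
    AE (3 * d) (e * (s' * e * s)) ((s' * e * s) * e) := by
  have h1 : AE d (s' * (e * (s * e * s')) * s) (s' * (s * e * s' * e) * s) := (h.left87 s').right87 s
  have k1 : AE d ((s' * e * s * e) * (s' * s)) ((s' * e * s * e) * 1) := hs.left87 _
  have k2 : AE d ((s' * s) * (e * s' * e * s)) (1 * (e * s' * e * s)) := hs.right87 _
  have e1 : s' * (e * (s * e * s')) * s = (s' * e * s * e) * (s' * s) := by
    simp only [mul_assoc]
  have e2 : s' * (s * e * s' * e) * s = (s' * s) * (e * s' * e * s) := by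
    simp only [mul_assoc]
  have e3 : (s' * e * s * e) * 1 = (s' * e * s) * e := mul_one _
  have e4 : 1 * (e * s' * e * s) = e * (s' * e * s) := by simp only [mul_assoc, one_mul]
  rw [e1, e2] at h1
  rw [e3] at k1
  rw [e4] at k2
  exact ((k2.symm87.trans87 h1.symm87).trans87 k1).mono87 (by omega)

/-- `s⁻¹ e s` is almost idempotent -/
theorem em_idem {d : ℕ} {s s' e : Matrix (Fin b) (Fin b) F} (hs : AE d (s * s') 1)
    (h : AE d (e * e) e) : AE (2 * d) ((s' * e * s) * (s' * e * s)) (s' * e * s) := by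
  have h1 := cj_idem (h := s') (h' := s) h hs
  exact h1.mono87 (by omega)

/-- `e (s⁻¹ e s)` is almost idempotent -/
theorem eq_idem {d : ℕ} {e q : Matrix (Fin b) (Fin b) F} (h : AE d (e * e) e)
    (hq : AE (2 * d) (q * q) q) (hc : AE (3 * d) (e * q) (q * e)) :
    AE (6 * d) ((e * q) * (e * q)) (e * q) := by
  have h1 : AE (3 * d) (e * (q * e) * q) (e * (e * q) * q) := (hc.symm87.left87 e).right87 q
  have h2 : AE d ((e * e) * (q * q)) (e * (q * q)) := h.right87 _
  have h3 : AE (2 * d) (e * (q * q)) (e * q) := hq.left87 e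
  have e1 : (e * q) * (e * q) = e * (q * e) * q := by simp only [mul_assoc]
  have e2 : e * (e * q) * q = (e * e) * (q * q) := by simp only [mul_assoc]
  rw [e1]
  rw [e2] at h1
  exact ((h1.trans87 h2).trans87 h3).mono87 (by omega)

theorem st_RC (F : Type u) [Field F] (h1 : ST_FN F) (h2 : ST_OR F) : ST_RC F := by
  obtain ⟨C, hC⟩ := h1
  obtain ⟨C', hC'⟩ := h2
  refine ⟨C' * (10 * C + 10) + 15 * C + 52, ?_⟩
  intro b d s s' t t' h h' k e R n
  obtain ⟨f1, f2, f3, f4, f5⟩ := hC b d s s' t t' h h' k e R n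
  have hd : d ≤ 3 ^ n * d := Nat.le_mul_of_pos_left _ (by positivity)
  have hc1 : C * 3 ^ n * d = C * (3 ^ n * d) := by ring
  have hfin : (C' * (10 * C + 10) + 15 * C + 52) * 3 ^ n * d =
      C' * ((10 * C + 10) * (3 ^ n * d)) + 15 * (C * (3 ^ n * d)) + 52 * (3 ^ n * d) := by ring
  have hcc : (10 * C + 10) * (3 ^ n * d) = 10 * (C * (3 ^ n * d)) + 10 * (3 ^ n * d) := by ring
  rw [hfin]
  rw [hc1] at f1 f2 f3 f4 f5
  set m := 3 ^ n * d with hm
  set δ := C * m with hδ
  set c := (10 * C + 10) * m with hc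
  set f := fn s s' e n with hf
  set q := s' * e * s with hq
  -- the five idempotents
  have hq2 : AE (2 * d) (q * q) q := em_idem R.ss R.ee
  have hqc : AE (3 * d) (e * q) (q * e) := em_comm R.ss' R.ee1
  have hX : AE (6 * d) ((e * q) * (e * q)) (e * q) := eq_idem R.ee hq2 hqc
  have hXf : AE (2 * δ) ((e * q) * f) (f * (e * q)) := by
    have k1 : AE δ (e * (q * f)) (e * (f * q)) := f3.left87 e
    have k2 : AE δ ((e * f) * q) ((f * e) * q) := f2.right87 q
    have e1 : (e * q) * f = e * (q * f) := by simp only [mul_assoc]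
    have e2 : e * (f * q) = (e * f) * q := by simp only [mul_assoc]
    have e3 : (f * e) * q = f * (e * q) := by simp only [mul_assoc]
    rw [e2] at k1
    rw [e3] at k2
    rw [e1]
    exact (k1.trans87 k2).mono87 (by omega)
  have i0 : AE c (EE s s' h h' e 0 * EE s s' h h' e 0) (EE s s' h h' e 0) :=
    AE.mono87 (d := d) R.ee (by omega)
  have j1 := cj_idem (h := h) (h' := h') R.ee R.hh'
  have j2 := cj_idem (h := h) (h' := h') j1 R.hh'
  have j3 := cj_idem (h := h) (h' := h') j2 R.hh'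
  have l1 := cj_idem (h := h) (h' := h') hX R.hh'
  have l2 := cj_idem (h := h) (h' := h') l1 R.hh'
  have l3 := cj_idem (h := h) (h' := h') l2 R.hh'
  have l4 := cj_idem (h := h) (h' := h') l3 R.hh'
  have m1 := cj_comm f2 f1 R.hh R.hh'
  have m2 := cj_comm m1 f1 R.hh R.hh'
  have m3 := cj_comm m2 f1 R.hh R.hh'
  have p1 := cj_comm hXf f1 R.hh R.hh'
  have p2 := cj_comm p1 f1 R.hh R.hh'
  have p3 := cj_comm p2 f1 R.hh R.hh'
  have p4 := cj_comm p3 f1 R.hh R.hh'
  obtain ⟨o1, o2⟩ := hC' b c (EE s s' h h' e) f (by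
      intro i
      fin_cases i
      · exact i0
      · exact j1.mono87 (by omega)
      · exact j2.mono87 (by omega)
      · exact j3.mono87 (by omega)
      · exact l4.mono87 (by omega))
    (fun i j hij => (R.orth i j hij).mono87 (by omega)) (R.cov.mono87 (by omega)) (by
      intro i
      fin_cases i
      · exact AE.mono87 (d := δ) f2 (by omega)
      · exact m1.mono87 (by omega)
      · exact m2.mono87 (by omega)
      · exact m3.mono87 (by omega)
      · exact p4.mono87 (by omega))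
  -- the ranks
  have r1 : (e * f).rank ≤ (fn s s' e (n + 1)).rank + (δ + 2 * d) ∧
      (fn s s' e (n + 1)).rank ≤ (e * f).rank + (δ + 2 * d) := by
    have k1 := sj_rank (Y := e * f) R.ss'
    have k2 := f4.rk87
    have k3 := f4.symm87.rk87
    omega
  have r2 : ((e * q) * f).rank ≤ (fn s s' e (n + 2)).rank + (δ + 4 * d) ∧
      (fn s s' e (n + 2)).rank ≤ ((e * q) * f).rank + (δ + 4 * d) := by
    have k1 := sj_rank (Y := (e * q) * f) R.ss'
    have k1' := sj_rank (Y := s * ((e * q) * f) * s') R.ss'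
    have k2 := f5.rk87
    have k3 := f5.symm87.rk87
    omega
  have a1 := cj_rank f1 R.hh R.hh' r1.1 r1.2
  have a2 := cj_rank f1 R.hh R.hh' a1.1 a1.2
  have a3 := cj_rank f1 R.hh R.hh' a2.1 a2.2
  have b1 := cj_rank f1 R.hh R.hh' r2.1 r2.2
  have b2 := cj_rank f1 R.hh R.hh' b1.1 b1.2
  have b3 := cj_rank f1 R.hh R.hh' b2.1 b2.2
  have b4 := cj_rank f1 R.hh R.hh' b3.1 b3.2
  rw [Fin.sum_univ_five] at o1 o2
  change f.rank ≤ (e * f).rank + ((h * e * h') * f).rank + ((h * (h * e * h') * h') * f).rank +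
    ((h * (h * (h * e * h') * h') * h') * f).rank +
    ((h * (h * (h * (h * (e * q) * h') * h') * h') * h') * f).rank + C' * c at o1
  change (e * f).rank + ((h * e * h') * f).rank + ((h * (h * e * h') * h') * f).rank +
    ((h * (h * (h * e * h') * h') * h') * f).rank +
    ((h * (h * (h * (h * (e * q) * h') * h') * h') * h') * f).rank ≤ f.rank + C' * c at o2
  generalize C' * c = cc at o1 o2 ⊢
  omega

end Pool.Agent.Helper87.FR
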